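import Pool.Agent.helper60.XP.SpecD

/-!
Module DIN of project xp: (MP_af9036_an): injectivity of the iterates up to the period at the scale of a point of the
cycle, and the bound of the displacement.
-/

set_option autoImplicit false

open Complex Metric Set Filter Topology MeasureTheory

noncomputable section

namespace XPD

theorem DIN_inj (F : ℂ → ℂ) (μ : ℂ) (e R : ℝ) (hF : Differentiable ℂ F) (hR : 0 < R) (he0 : 0 < e)
    (he : e ≤ 1 / 10) (hμ : 1 / 2 ≤ ‖μ‖) (hE : ∀ x ∈ ball (0 : ℂ) R, ‖F x - μ * x‖ ≤ e * ‖x‖) :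
    InjOn F (ball 0 (R / 2)) := by
  have hEd : Differentiable ℂ (fun x => F x - μ * x) :=
    hF.sub ((differentiable_const μ).mul differentiable_id)
  have hder : ∀ z ∈ ball (0 : ℂ) (R / 2), ‖deriv (fun x => F x - μ * x) z‖ ≤ 4 / 10 := by
    intro z hz
    have h1 : ‖deriv (fun x => F x - μ * x) z‖ ≤ (e * R) / (R / 4) := by
      apply Complex.norm_deriv_le_of_forall_mem_sphere_norm_le (by positivity)
      · exact hEd.diffContOnCl
      · intro w hw
        have h2 : ‖w‖ < R := by
          have h3 : ‖w - z‖ = R / 4 := by simpa [dist_eq_norm] using hw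
          have h4 : ‖z‖ < R / 2 := by simpa using hz
          have h5 : ‖w‖ ≤ ‖w - z‖ + ‖z‖ := by
            have := norm_add_le (w - z) z
            simpa using this
          linarith
        refine (hE w (by simpa using h2)).trans ?_
        exact mul_le_mul_of_nonneg_left h2.le he0.le
    refine h1.trans ?_
    rw [div_le_iff₀ (by positivity)]
    nlinarith
  intro x hx y hy hxy
  have h6 : ‖(F y - μ * y) - (F x - μ * x)‖ ≤ 4 / 10 * ‖y - x‖ :=
    (convex_ball (0 : ℂ) (R / 2)).norm_image_sub_le_of_norm_deriv_le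
      (fun z _ => hEd z) hder hx hy
  have h7 : (F y - μ * y) - (F x - μ * x) = -(μ * (y - x)) := by rw [hxy]; ring
  rw [h7, norm_neg, norm_mul] at h6
  have h8 : ‖y - x‖ = 0 := by
    have h9 := norm_nonneg (y - x)
    nlinarith
  rw [norm_eq_zero, sub_eq_zero] at h8
  exact h8.symm

theorem DIN (hDIT : DIT_stmt) : DIN_stmt := by
  intro n k _ f b μ e L hD i R hS
  obtain ⟨_, _, hdiff, hadd, _⟩ := hDIT k f b hD.cyc
  have hk : InjOn (itf f k) (ball (b i) (R / 2)) := by
    have h1 : InjOn (fun x => itf f k (b i + x) - b i) (ball 0 (R / 2)) := by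
      apply DIN_inj _ μ e R _ hS.pos hD.e0 hD.e1 hD.m0
      · exact hS.near
      · exact ((hdiff k).comp ((differentiable_const _).add differentiable_id)).sub_const _
    intro x hx y hy hxy
    have h2 := @h1 (x - b i) (by simpa [dist_eq_norm] using hx) (y - b i) (by simpa [dist_eq_norm] using hy)
      (by simpa using hxy)
    exact sub_left_injective h2
  refine ⟨?_, ?_⟩
  · intro j hj x hx y hy hxy
    apply hk hx hy
    have h3 : k - j + j = k := Nat.sub_add_cancel hj
    rw [← h3, hadd, hadd, hxy]
  · intro x hx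
    have h4 := hS.near x hx
    have h5 : itf f k (b i + x) - b i - x = (itf f k (b i + x) - b i - μ * x) + (μ - 1) * x := by ring
    rw [h5]
    refine (norm_add_le _ _).trans ?_
    rw [norm_mul]
    have h6 := hD.m3
    have h7 := norm_nonneg x
    nlinarith

end XPD
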