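import Pool.Agent.helper60.XP.SpecE

/-!
Module ENDG of project xp: (MP_af9036_an): the end game, assembled from GTR, FEN and PEN.
-/

set_option autoImplicit false

open Complex Metric Set Filter Topology MeasureTheory
open V3 (En ZL)

noncomputable section

namespace XPE

theorem ENDG (hGTR : GTR_stmt) (hFEN : FEN_stmt) (hPEN : PEN_stmt) : ENDG_stmt := by
  intro P A g B v q θ hL
  rcases hGTR P A g B v q θ hL with hfin | ⟨t, ht, hP, hA⟩
  · exact (hFEN P A g B v q θ hL hfin).elim
  · obtain ⟨t', c', ht', hP', hc', hv, hB⟩ := hPEN P A g B v q θ t hL ht hP hA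
    exact ⟨t', c', ht', hP', hA, hc', hv, hB⟩

end XPE
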