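import Pool.Agent.helper54.XP.SpecL

/-!
Module ISO of project xp: (MP_af9036_an, MP_70a088_an): along the tower the pulled back differentials converge to the
limit differential, uniformly on compact subsets of the regular set (copy of helper19/V3/ISO.lean).
-/

set_option autoImplicit false

open Complex Metric Set Filter Topology MeasureTheory XP
open V3S (UF)

noncomputable section

namespace XPL

theorem ISO (hISL : ISL_stmt) (hALC : ALC_stmt) : ISO_stmt := by
  intro n Cf D hS hST K hK hKR ε hε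
  have hdiff := hS.lb.diff
  have hconv := hS.lb.conv
  have hKP : K ⊆ (Pin D)ᶜ := fun x hx => (hKR hx).1
  have hloc : ∃ C : ℝ, ∀ᶠ m in UF, ∀ j ≤ (D m).K, ∀ y ∈ K,
      ‖(D m).T j y - (D m).B y‖ ≤ C * (D m).om * ‖(D m).B y‖ := by
    refine hK.induction_on (p := fun s => ∃ C : ℝ, ∀ᶠ m in UF, ∀ j ≤ (D m).K, ∀ y ∈ s,
      ‖(D m).T j y - (D m).B y‖ ≤ C * (D m).om * ‖(D m).B y‖) ?_ ?_ ?_ ?_
    · exact ⟨0, Filter.Eventually.of_forall fun m j _ y hy => absurd hy (Set.notMem_empty y)⟩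
    · rintro s t hst ⟨C, hC⟩
      exact ⟨C, hC.mono fun m hm j hj y hy => hm j hj y (hst hy)⟩
    · rintro s t ⟨C₁, h1⟩ ⟨C₂, h2⟩
      refine ⟨max C₁ C₂, ?_⟩
      filter_upwards [h1, h2] with m hm1 hm2 j hj y hy
      have hom := (hS.par.om0 m).le
      rcases hy with hy | hy
      · refine (hm1 j hj y hy).trans ?_
        gcongr
        exact le_max_left _ _
      · refine (hm2 j hj y hy).trans ?_
        gcongr
        exact le_max_right _ _
    · intro x hx
      obtain ⟨ρ, hρ, C, hC⟩ := hISL n Cf D hS x (hKR hx) (hALC n Cf D hS hST x (hKR hx))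
      exact ⟨ball x ρ, mem_nhdsWithin_of_mem_nhds (ball_mem_nhds x hρ), C, hC⟩
  obtain ⟨C, hC⟩ := hloc
  obtain ⟨M, hM⟩ := hK.exists_bound_of_continuousOn (hdiff.continuousOn.mono hKP)
  have hM0 : ∀ y ∈ K, ‖Bin D y‖ ≤ |M| := fun y hy => (hM y hy).trans (le_abs_self M)
  have hu := hconv K hK hKP
  rw [Metric.tendstoUniformlyOn_iff] at hu
  have hmin : 0 < min (ε / 2) 1 := lt_min (by linarith) one_pos
  have hu1 := hu _ hmin
  have hlam : ∀ᶠ m in UF, (D m).om < ε / (2 * ((|C| + 1) * (|M| + 1))) := by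
    have h2 : ∀ᶠ m in UF, ((D m).N : ℝ) ^ 3 * (D m).om < ε / (2 * ((|C| + 1) * (|M| + 1))) := by
      apply hS.par.om1.eventually_lt_const
      positivity
    filter_upwards [h2] with m hm
    have h3 : (1 : ℝ) ≤ ((D m).N : ℝ) := by exact_mod_cast hS.par.N1 m
    have h4 : (1 : ℝ) ≤ ((D m).N : ℝ) ^ 3 := one_le_pow₀ h3
    have h5 := hS.par.om0 m
    nlinarith
  filter_upwards [hC, hu1, hlam] with m hm1 hm2 hm3 j hj x hx
  have hom := hS.par.om0 m
  have hB1 : ‖(D m).B x - Bin D x‖ < min (ε / 2) 1 := by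
    have := hm2 x hx
    rwa [dist_comm, dist_eq_norm] at this
  have hB2 : ‖(D m).B x‖ ≤ |M| + 1 := by
    calc ‖(D m).B x‖ = ‖((D m).B x - Bin D x) + Bin D x‖ := by rw [sub_add_cancel]
      _ ≤ ‖(D m).B x - Bin D x‖ + ‖Bin D x‖ := norm_add_le _ _
      _ ≤ 1 + |M| := add_le_add (hB1.le.trans (min_le_right _ _)) (hM0 x hx)
      _ = |M| + 1 := add_comm _ _
  have hden : 0 < 2 * ((|C| + 1) * (|M| + 1)) := by positivity
  rw [lt_div_iff₀ hden] at hm3
  have h3 : C * (D m).om * ‖(D m).B x‖ ≤ ε / 2 := by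
    calc C * (D m).om * ‖(D m).B x‖ ≤ (|C| + 1) * (D m).om * (|M| + 1) := by
          gcongr
          exact (le_abs_self C).trans (by linarith)
      _ = (D m).om * (2 * ((|C| + 1) * (|M| + 1))) / 2 := by ring
      _ ≤ ε / 2 := by linarith
  calc ‖(D m).T j x - Bin D x‖
      = ‖((D m).T j x - (D m).B x) + ((D m).B x - Bin D x)‖ := by rw [sub_add_sub_cancel]
    _ ≤ ‖(D m).T j x - (D m).B x‖ + ‖(D m).B x - Bin D x‖ := norm_add_le _ _
    _ ≤ ε / 2 + ε / 2 := add_le_add ((hm1 j hj x hx).trans h3) (hB1.le.trans (min_le_left _ _))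
    _ = ε := by ring

end XPL
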